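import Mathlib
import Pool.Agent.Q21.TC.GLn

/-!
# Tate cohomology of `σ`-fixed admissible representations is admissible

Let `F` be a nonarchimedean local field whose residue characteristic is not `p` (for example a
local function field of characteristic `≠ p`), `G` the group of `F`-points of a linear algebraic
group (any closed subgroup of `GL_n(F)`), `σ` a continuous automorphism of `G` with `σ^p = 1`, and
`Π` an admissible representation of `G ⋊ ⟨σ⟩` over a field of characteristic `p`. Then `T⁰(Π)` and
`T¹(Π)` are admissible representations of `H = G^σ`.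

Proof. `G` has arbitrarily small `σ`-stable compact open subgroups `U` of pro-order prime to `p`.
We show `Tⁱ(Π)^{U^σ}` is the image of `Π^U`. Let `v` represent a `U^σ`-invariant class, and let
`U' ⊆ U` be open, `σ`-stable and fix `v`. Consider `e = ∑_{u ∈ U/U'} u v ∈ Π^U`. The cosets which
are not fixed by `σ` contribute `0` in `Tⁱ`; the cosets fixed by `σ` have representatives in
`U^σ`, so they contribute `v` each, and their number is `[U : U'] ≠ 0` modulo `p`.
-/

set_option autoImplicit false

namespace Pool.Agent.Results.MP_60b77b_nt.TateAdmissible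

open Pool.Agent.Q21.TC

/-- Let `F` be a nonarchimedean local field of residue characteristic `≠ p`, `G` a closed subgroup
of `GL_n(F)`, `σ` a continuous automorphism of `G` with `σ^p = 1`, and `ρ` an admissible
representation of `G` over a field `k` of characteristic `p`, extended to `G ⋊ ⟨σ⟩` by `S`. Then
the representations `T⁰ = ker(1 - σ)/N` and `T¹ = ker N/(1 - σ)` of `H = G^σ` are admissible. -/
theorem result (p : ℕ) [Fact p.Prime] (k : Type*) [Field k] [CharP k p]
    (F : Type*) [NontriviallyNormedField F] [IsUltrametricDist F] [ProperSpace F]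
    (hF : ‖(p : F)‖ = 1) (n : ℕ) (G : Subgroup (GL (Fin n) F))
    (hG : IsClosed (G : Set (GL (Fin n) F))) (σ : G ≃* G) (hc : Continuous σ)
    (hσ : ∀ g, σ^[p] g = g) (V : Type*) [AddCommGroup V] [Module k V]
    (ρ : Representation k G V) (hρ : IsAdmissible ρ) (S : Module.End k V)
    (hS : Extends p σ ρ S) : IsAdmissible (T0rep hS) ∧ IsAdmissible (T1rep hS) := by
  have hb : ∀ N ∈ nhds (1 : G), ∃ W : Subgroup G, IsOpen (W : Set G) ∧ (W : Set G) ⊆ N := by
    intro N hN
    obtain ⟨r, hr, hr1, h⟩ := basis_G G hN
    exact ⟨_, (isOpen_Kr (hr := hr.le) (hr1 := hr1.trans (by norm_num)) hr.ne').preimage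
      continuous_subtype_val, h⟩
  exact ⟨isAdmissible_T0 hc hσ hb (K0 G) (isOpen_K0 G) (isCompact_K0 G hG) (cop_K0 G hG hF) hρ hS,
    isAdmissible_T1 hc hσ hb (K0 G) (isOpen_K0 G) (isCompact_K0 G hG) (cop_K0 G hG hF) hρ hS⟩

end Pool.Agent.Results.MP_60b77b_nt.TateAdmissible
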